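import Mathlib

/-!
# Sums of square waves

The square wave `w x` is the sign of `sin (2 π x)`. A sum of square waves `w (b τ)`, `b` in a
finite multiset of nonzero integers without opposite pairs, which is bounded by `1` on a fine grid
has at most one term.
-/

set_option autoImplicit false

open Finset

namespace Pool.Agent.UpperHalf

/-- the square wave -/
noncomputable def w (x : ℝ) : ℝ := Real.sign (Real.sin (2 * Real.pi * x))

theorem w_neg (x : ℝ) : w (-x) = - w x := by
  unfold w
  rw [mul_neg, Real.sin_neg, Real.sign_neg]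

theorem w_add_int (x : ℝ) (n : ℤ) : w (x + n) = w x := by
  unfold w
  congr 1
  rw [mul_add]
  have : 2 * Real.pi * x + 2 * Real.pi * n = 2 * Real.pi * x + n * (2 * Real.pi) := by ring
  rw [this, Real.sin_add_int_mul_two_pi]

theorem w_mul_sin (x : ℝ) : w x * Real.sin (2 * Real.pi * x) = |Real.sin (2 * Real.pi * x)| := by
  unfold w
  rcases lt_trichotomy (Real.sin (2 * Real.pi * x)) 0 with h | h | h
  · rw [Real.sign_of_neg h, abs_of_neg h]; ring
  · rw [h]; simp
  · rw [Real.sign_of_pos h, abs_of_pos h]; ring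

/-- the grid -/
noncomputable def τ (L : ℕ) (l : ℤ) : ℝ := (2 * l + 1) / (4 * L)

theorem sin_ne_zero {L : ℕ} (hL : 0 < L) {b : ℤ} (hb : b ≠ 0) (hbL : b ∣ L) (l : ℤ) :
    Real.sin (2 * Real.pi * (b * τ L l)) ≠ 0 := by
  intro h
  rw [Real.sin_eq_zero_iff] at h
  obtain ⟨n, hn⟩ := h
  obtain ⟨c, hc⟩ := hbL
  have hpi := Real.pi_pos
  have hLR : (L : ℝ) ≠ 0 := by exact_mod_cast hL.ne'
  have hc' : (L : ℝ) = b * c := by exact_mod_cast hc
  have hcR : (c : ℝ) ≠ 0 := by
    intro h0; apply hLR; rw [hc', h0, mul_zero]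
  have hbR : (b : ℝ) ≠ 0 := by exact_mod_cast hb
  unfold τ at hn
  rw [hc'] at hn
  have h1 : (2 * (c : ℝ) * n) = 2 * l + 1 := by
    have h2 : (n : ℝ) * Real.pi = Real.pi * ((2 * l + 1) / (2 * c)) := by
      rw [hn]; field_simp; ring
    have h3 : (n : ℝ) = (2 * l + 1) / (2 * c) := by
      have := mul_left_cancel₀ hpi.ne' (show Real.pi * n = Real.pi * ((2 * l + 1) / (2 * c)) by
        rw [← h2]; ring)
      exact this
    rw [h3]; field_simp
  have h4 : 2 * c * n = 2 * l + 1 := by exact_mod_cast h1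
  have h5 : 2 * (c * n) = 2 * l + 1 := by rw [← h4]; ring
  omega

/-- sums over a period are invariant under shifts -/
theorem sum_shift {n : ℕ} [NeZero n] (f : ℤ → ℝ) (hf : ∀ l, f (l + n) = f l) (c : ℤ) :
    ∑ z : ZMod n, f ((z.val : ℤ) + c) = ∑ z : ZMod n, f (z.val : ℤ) := by
  have hper : ∀ (l k : ℤ), f (l + n * k) = f l := by
    intro l k
    induction k using Int.induction_on with
    | zero => simp
    | succ k ih => rw [← ih, ← hf (l + n * k)]; congr 1; ring
    | pred k ih => rw [← ih, ← hf (l + n * (-k - 1))]; congr 1; ring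
  have hcongr : ∀ l l' : ℤ, ((l : ZMod n) = l') → f l = f l' := by
    intro l l' h
    rw [ZMod.intCast_eq_intCast_iff_dvd_sub] at h
    obtain ⟨k, hk⟩ := h
    rw [← hper l k]
    congr 1
    linarith
  refine Fintype.sum_equiv (Equiv.addRight (c : ZMod n)) _ _ fun z => ?_
  apply hcongr
  simp

theorem tau_period {L : ℕ} (hL : 0 < L) (l : ℤ) : τ L (l + (2 * L : ℕ)) = τ L l + 1 := by
  have hLR : (L : ℝ) ≠ 0 := by exact_mod_cast hL.ne'
  unfold τ
  push_cast
  field_simp
  ring

theorem tau_shift {L : ℕ} (hL : 0 < L) {b c : ℤ} (hb : b ≠ 0) (hc : (L : ℤ) = b * c) (s l : ℤ) :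
    τ L (l + s * (2 * c)) = τ L l + s / b := by
  have hLR : (L : ℝ) ≠ 0 := by exact_mod_cast hL.ne'
  have hc' : (L : ℝ) = b * c := by exact_mod_cast hc
  have hcR : (c : ℝ) ≠ 0 := by
    intro h0; apply hLR; rw [hc', h0, mul_zero]
  have hbR : (b : ℝ) ≠ 0 := by exact_mod_cast hb
  unfold τ
  rw [hc']
  push_cast
  field_simp
  ring

/-- Square waves of higher frequency are orthogonal to the sine. -/
theorem orth {L : ℕ} (hL : 0 < L) [NeZero (2 * L)] {b β : ℤ} (hb : b ≠ 0) (hbL : b ∣ L)
    (hβ : 0 < β) (hβb : β < |b|) :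
    ∑ z : ZMod (2 * L), w (b * τ L z.val) * Real.sin (2 * Real.pi * (β * τ L z.val)) = 0 := by
  obtain ⟨c, hc⟩ := hbL
  have hbR : (b : ℝ) ≠ 0 := by exact_mod_cast hb
  have hpi := Real.pi_pos
  let f : ℤ → ℝ := fun l => w (b * τ L l) * Real.sin (2 * Real.pi * (β * τ L l))
  have hf : ∀ l, f (l + (2 * L : ℕ)) = f l := by
    intro l
    simp only [f, tau_period hL]
    rw [mul_add, mul_one, w_add_int, mul_add (β : ℝ), mul_one, mul_add (2 * Real.pi)]
    rw [show 2 * Real.pi * (β * τ L l) + 2 * Real.pi * β = 2 * Real.pi * (β * τ L l) + β * (2 * Real.pi)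
      by ring, Real.sin_add_int_mul_two_pi]
  have h1 := sum_shift f hf (2 * c)
  have h2 := sum_shift f hf (-(2 * c))
  have h3 : ∀ l, f (l + 2 * c) + f (l + -(2 * c)) = 2 * Real.cos (2 * Real.pi * (β / b)) * f l := by
    intro l
    have e1 := tau_shift hL hb hc 1 l
    have e2 := tau_shift hL hb hc (-1) l
    rw [one_mul] at e1
    rw [show (-1 : ℤ) * (2 * c) = -(2 * c) by ring] at e2
    simp only [f, e1, e2]
    have e3 : w (b * (τ L l + ((1 : ℤ) : ℝ) / b)) = w (b * τ L l) := by
      rw [← w_add_int (b * τ L l) 1]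
      congr 1
      field_simp
    have e4 : w (b * (τ L l + ((-1 : ℤ) : ℝ) / b)) = w (b * τ L l) := by
      rw [← w_add_int (b * τ L l) (-1)]
      congr 1
      field_simp
    rw [e3, e4]
    have e5 : 2 * Real.pi * (β * (τ L l + ((1 : ℤ) : ℝ) / b)) =
        2 * Real.pi * (β * τ L l) + 2 * Real.pi * (β / b) := by push_cast; ring
    have e6 : 2 * Real.pi * (β * (τ L l + ((-1 : ℤ) : ℝ) / b)) =
        2 * Real.pi * (β * τ L l) - 2 * Real.pi * (β / b) := by push_cast; ring
    rw [e5, e6, Real.sin_add, Real.sin_sub]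
    ring
  have h4 : ∑ z : ZMod (2 * L), f ((z.val : ℤ) + 2 * c) + ∑ z : ZMod (2 * L), f ((z.val : ℤ) + -(2 * c))
      = 2 * Real.cos (2 * Real.pi * (β / b)) * ∑ z : ZMod (2 * L), f (z.val : ℤ) := by
    rw [← Finset.sum_add_distrib, Finset.mul_sum]
    exact Finset.sum_congr rfl fun z _ => h3 _
  rw [h1, h2] at h4
  have h5 : Real.cos (2 * Real.pi * (β / b)) ≠ 1 := by
    intro h
    have hβ' : (0 : ℝ) < β := by exact_mod_cast hβ
    have hβb' : (β : ℝ) < |(b : ℝ)| := by exact_mod_cast hβb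
    have hab : |(β : ℝ) / b| < 1 := by
      rw [abs_div, abs_of_pos hβ', div_lt_one (abs_pos.mpr hbR)]
      exact hβb'
    have h6 := abs_lt.mp hab
    rw [Real.cos_eq_one_iff_of_lt_of_lt (by nlinarith [h6.1]) (by nlinarith [h6.2])] at h
    rcases mul_eq_zero.mp h with h | h
    · exact (by positivity : (2 * Real.pi) ≠ 0) h
    · exact (div_ne_zero hβ'.ne' hbR) h
  have h7 : (1 - Real.cos (2 * Real.pi * (β / b))) * ∑ z : ZMod (2 * L), f (z.val : ℤ) = 0 := by
    linarith
  rcases mul_eq_zero.mp h7 with h | h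
  · exact absurd (by linarith) h5
  · exact h

/-- the sum of the square waves with frequencies in `M` -/
noncomputable def F (M : Multiset ℤ) (x : ℝ) : ℝ := (M.map fun b : ℤ => w (b * x)).sum

theorem F_cons (b : ℤ) (M : Multiset ℤ) (x : ℝ) : F (b ::ₘ M) x = w (b * x) + F M x := by
  simp [F]

/-- The product of the sum with the sine of the lowest frequency. -/
theorem sum_F_sin {L : ℕ} (hL : 0 < L) [NeZero (2 * L)] (β : ℤ) (hβ : 0 < β) (s : ℤ)
    (hs : s = 1 ∨ s = -1) (M : Multiset ℤ) :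
    (∀ b ∈ M, b ≠ 0 ∧ b ∣ L ∧ (b = s * β ∨ β < |b|)) →
    ∑ z : ZMod (2 * L), F M (τ L z.val) * Real.sin (2 * Real.pi * (β * τ L z.val)) =
      s * M.count (s * β) * ∑ z : ZMod (2 * L), |Real.sin (2 * Real.pi * (β * τ L z.val))| := by
  induction M using Multiset.induction_on with
  | empty => simp [F]
  | cons b M ih =>
    intro hM
    have h1 := ih fun b hb => hM b (Multiset.mem_cons_of_mem hb)
    obtain ⟨hb0, hbL, hb⟩ := hM b (Multiset.mem_cons_self _ _)
    simp only [F_cons, add_mul, Finset.sum_add_distrib]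
    rw [h1]
    rcases hb with hb | hb
    · rw [hb, Multiset.count_cons_self]
      have h2 : ∀ z : ZMod (2 * L), w (((s * β : ℤ) : ℝ) * τ L z.val) *
          Real.sin (2 * Real.pi * (β * τ L z.val)) =
          s * |Real.sin (2 * Real.pi * (β * τ L z.val))| := by
        intro z
        rcases hs with rfl | rfl
        · rw [one_mul, w_mul_sin]
          simp
        · have : (((-1 * β : ℤ) : ℝ) * τ L z.val) = -(β * τ L z.val) := by push_cast; ring
          rw [this, w_neg, neg_mul, w_mul_sin]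
          simp
      rw [Finset.sum_congr rfl fun z _ => h2 z, ← Finset.mul_sum]
      push_cast
      ring
    · rw [orth hL hb0 hbL hβ hb]
      have hne : s * β ≠ b := by
        rintro rfl
        rcases hs with rfl | rfl
        · rw [one_mul, abs_of_pos hβ] at hb; exact lt_irrefl _ hb
        · rw [neg_one_mul, abs_neg, abs_of_pos hβ] at hb; exact lt_irrefl _ hb
      rw [Multiset.count_cons_of_ne hne]
      ring

theorem sum_abs_pos {L : ℕ} (hL : 0 < L) [NeZero (2 * L)] {β : ℤ} (hβ : β ≠ 0) (hβL : β ∣ L) :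
    0 < ∑ z : ZMod (2 * L), |Real.sin (2 * Real.pi * (β * τ L z.val))| :=
  Finset.sum_pos (fun z _ => abs_pos.mpr (sin_ne_zero hL hβ hβL _)) ⟨0, Finset.mem_univ _⟩

theorem proj {L : ℕ} (hL : 0 < L) [NeZero (2 * L)] {M : Multiset ℤ} (hM0 : M ≠ 0)
    (hM : ∀ b ∈ M, b ≠ 0 ∧ b ∣ L) (hopp : ∀ b ∈ M, -b ∉ M) :
    ∃ β s : ℤ, 0 < β ∧ (s = 1 ∨ s = -1) ∧ s * β ∈ M ∧ β ∣ L ∧
      ∑ z : ZMod (2 * L), F M (τ L z.val) * Real.sin (2 * Real.pi * (β * τ L z.val)) =
      s * M.count (s * β) * ∑ z : ZMod (2 * L), |Real.sin (2 * Real.pi * (β * τ L z.val))| := by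
  classical
  obtain ⟨b0, hb0, hmin⟩ : ∃ b0 ∈ M, ∀ b ∈ M, |b0| ≤ |b| := by
    have hne : M.toFinset.Nonempty := by
      obtain ⟨b, hb⟩ := Multiset.exists_mem_of_ne_zero hM0
      exact ⟨b, Multiset.mem_toFinset.mpr hb⟩
    obtain ⟨b0, h1, h2⟩ := Finset.exists_min_image M.toFinset (fun b => |b|) hne
    exact ⟨b0, Multiset.mem_toFinset.mp h1, fun b hb => h2 b (Multiset.mem_toFinset.mpr hb)⟩
  obtain ⟨hb00, hb0L⟩ := hM b0 hb0
  have hpos : 0 < |b0| := abs_pos.mpr hb00
  have hdvd : |b0| ∣ (L : ℤ) := (abs_dvd _ _).mpr hb0L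
  have key : ∀ s : ℤ, (s = 1 ∨ s = -1) → s * |b0| = b0 →
      ∀ b ∈ M, b ≠ 0 ∧ b ∣ L ∧ (b = s * |b0| ∨ |b0| < |b|) := by
    intro s hs hsb b hb
    obtain ⟨h1, h2⟩ := hM b hb
    refine ⟨h1, h2, ?_⟩
    rcases (hmin b hb).lt_or_eq with h | h
    · exact Or.inr h
    · left
      rw [hsb]
      rcases abs_eq_abs.mp h with h | h
      · exact h.symm
      · exfalso
        apply hopp b hb
        rw [← h]
        exact hb0
  rcases lt_or_gt_of_ne hb00 with h | h
  · have e : (-1) * |b0| = b0 := by rw [abs_of_neg h]; ring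
    refine ⟨|b0|, -1, hpos, Or.inr rfl, by rw [e]; exact hb0, hdvd, ?_⟩
    exact sum_F_sin hL |b0| hpos (-1) (Or.inr rfl) M (key (-1) (Or.inr rfl) e)
  · have e : 1 * |b0| = b0 := by rw [abs_of_pos h]; ring
    refine ⟨|b0|, 1, hpos, Or.inl rfl, by rw [e]; exact hb0, hdvd, ?_⟩
    exact sum_F_sin hL |b0| hpos 1 (Or.inl rfl) M (key 1 (Or.inl rfl) e)

/-- A sum of square waves without opposite pairs which is bounded by `1` has at most one term. -/
theorem card_le_one {L : ℕ} (hL : 0 < L) {M : Multiset ℤ}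
    (hM : ∀ b ∈ M, b ≠ 0 ∧ b ∣ L) (hopp : ∀ b ∈ M, -b ∉ M)
    (hF : ∀ l : ℤ, |F M (τ L l)| ≤ 1) : M.card ≤ 1 := by
  classical
  have : NeZero (2 * L) := ⟨by omega⟩
  by_cases hM0 : M = 0
  · rw [hM0]; simp
  obtain ⟨β, s, hβ, hs, hsM, hβL, hsum⟩ := proj hL hM0 hM hopp
  have hA := sum_abs_pos hL (β := β) hβ.ne' hβL
  have hsR : (s : ℝ) * s = 1 := by
    rcases hs with rfl | rfl <;> norm_num
  have hle : ∀ z : ZMod (2 * L), s * (F M (τ L z.val) * Real.sin (2 * Real.pi * (β * τ L z.val))) ≤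
      |Real.sin (2 * Real.pi * (β * τ L z.val))| := by
    intro z
    calc s * (F M (τ L z.val) * Real.sin (2 * Real.pi * (β * τ L z.val)))
        ≤ |s * (F M (τ L z.val) * Real.sin (2 * Real.pi * (β * τ L z.val)))| := le_abs_self _
      _ = |F M (τ L z.val)| * |Real.sin (2 * Real.pi * (β * τ L z.val))| := by
          rw [abs_mul, abs_mul]
          have : |(s : ℝ)| = 1 := by
            rcases hs with rfl | rfl <;> norm_num
          rw [this, one_mul]
      _ ≤ 1 * |Real.sin (2 * Real.pi * (β * τ L z.val))| :=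
          mul_le_mul_of_nonneg_right (hF _) (abs_nonneg _)
      _ = _ := one_mul _
  have h1 : ∑ z : ZMod (2 * L), s * (F M (τ L z.val) * Real.sin (2 * Real.pi * (β * τ L z.val))) =
      M.count (s * β) * ∑ z : ZMod (2 * L), |Real.sin (2 * Real.pi * (β * τ L z.val))| := by
    rw [← Finset.mul_sum, hsum]
    linear_combination (M.count (s * β) * ∑ z : ZMod (2 * L),
      |Real.sin (2 * Real.pi * (β * τ L z.val))|) * hsR
  have hcount : M.count (s * β) = 1 := by
    have h2 := Finset.sum_le_sum fun z (_ : z ∈ (Finset.univ : Finset (ZMod (2 * L)))) => hle z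
    rw [h1] at h2
    have h3 : (M.count (s * β) : ℝ) ≤ 1 := by
      by_contra hcon
      push Not at hcon
      nlinarith
    have h4 : M.count (s * β) ≤ 1 := by exact_mod_cast h3
    have h5 := Multiset.count_pos.mpr hsM
    omega
  rw [hcount, Nat.cast_one, one_mul] at h1
  have heq : ∀ z : ZMod (2 * L), F M (τ L z.val) = w (((s * β : ℤ) : ℝ) * τ L z.val) := by
    intro z
    have h2 := (Finset.sum_eq_sum_iff_of_le fun z _ => hle z).mp h1 z (Finset.mem_univ z)
    have h3 := sin_ne_zero hL (b := β) hβ.ne' hβL z.val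
    rw [← w_mul_sin, ← mul_assoc] at h2
    have h4 := mul_right_cancel₀ h3 h2
    have h5 : w (((s * β : ℤ) : ℝ) * τ L z.val) = s * w (β * τ L z.val) := by
      rcases hs with rfl | rfl
      · simp
      · rw [show (((-1 * β : ℤ) : ℝ) * τ L z.val) = -(β * τ L z.val) by push_cast; ring, w_neg]
        push_cast
        ring
    rw [h5, ← h4, ← mul_assoc, hsR, one_mul]
  obtain ⟨M', rfl⟩ := Multiset.exists_cons_of_mem hsM
  have hzero : ∀ z : ZMod (2 * L), F M' (τ L z.val) = 0 := by
    intro z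
    have h2 := heq z
    rw [F_cons] at h2
    linarith
  by_cases hM'0 : M' = 0
  · rw [hM'0]; simp
  exfalso
  obtain ⟨β', s', hβ', hs', hsM', hβL', hsum'⟩ := proj hL hM'0
    (fun b hb => hM b (Multiset.mem_cons_of_mem hb))
    (fun b hb hb' => hopp b (Multiset.mem_cons_of_mem hb) (Multiset.mem_cons_of_mem hb'))
  have hA' := sum_abs_pos hL (β := β') hβ'.ne' hβL'
  have h2 : ∑ z : ZMod (2 * L), F M' (τ L z.val) * Real.sin (2 * Real.pi * (β' * τ L z.val)) = 0 :=
    Finset.sum_eq_zero fun z _ => by rw [hzero, zero_mul]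
  rw [h2] at hsum'
  have h3 := Multiset.count_pos.mpr hsM'
  have h4 : (s' : ℝ) ≠ 0 := by
    rcases hs' with rfl | rfl <;> norm_num
  have h5 : ((M'.count (s' * β') : ℕ) : ℝ) ≠ 0 := by exact_mod_cast h3.ne'
  exact (mul_ne_zero (mul_ne_zero h4 h5) hA'.ne') hsum'.symm

/-- the number of square waves with positive value -/
noncomputable def npos (M : Multiset ℤ) (x : ℝ) : ℕ :=
  M.countP fun b : ℤ => 0 < Real.sin (2 * Real.pi * (b * x))

/-- the number of square waves with negative value -/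
noncomputable def nneg (M : Multiset ℤ) (x : ℝ) : ℕ :=
  M.countP fun b : ℤ => Real.sin (2 * Real.pi * (b * x)) < 0

theorem F_eq (M : Multiset ℤ) (x : ℝ) : F M x = npos M x - nneg M x := by
  induction M using Multiset.induction_on with
  | empty => simp [F, npos, nneg]
  | cons b M ih =>
    rw [F_cons, ih]
    unfold npos nneg w
    rw [Multiset.countP_cons, Multiset.countP_cons]
    rcases lt_trichotomy (Real.sin (2 * Real.pi * (b * x))) 0 with h | h | h
    · rw [Real.sign_of_neg h, if_neg (not_lt.mpr h.le), if_pos h]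
      push_cast
      ring
    · rw [h]
      simp
    · rw [Real.sign_of_pos h, if_pos h, if_neg (not_lt.mpr h.le)]
      push_cast
      ring

theorem npos_add_nneg_le (M : Multiset ℤ) (x : ℝ) : npos M x + nneg M x ≤ M.card := by
  induction M using Multiset.induction_on with
  | empty => simp [npos, nneg]
  | cons b M ih =>
    unfold npos nneg at ih ⊢
    rw [Multiset.countP_cons, Multiset.countP_cons, Multiset.card_cons]
    rcases lt_trichotomy (Real.sin (2 * Real.pi * (b * x))) 0 with h | h | h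
    · rw [if_neg (not_lt.mpr h.le), if_pos h]
      omega
    · rw [h, if_neg (lt_irrefl _)]
      omega
    · rw [if_pos h, if_neg (not_lt.mpr h.le)]
      omega

/-- Every multiset of at most `2 j + 1` frequencies such that at all times at least `j` of the
square waves are positive and at least `j` are negative contains `j` disjoint pairs of opposite
frequencies. -/
theorem pairs {L : ℕ} (hL : 0 < L) : ∀ (j : ℕ) (M : Multiset ℤ), (∀ b ∈ M, b ≠ 0 ∧ b ∣ L) →
    M.card ≤ 2 * j + 1 → (∀ l : ℤ, j ≤ npos M (τ L l) ∧ j ≤ nneg M (τ L l)) →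
    ∃ m : Multiset ℤ, m.card = j ∧ m + m.map (fun b => -b) ≤ M := by
  intro j
  induction j with
  | zero =>
    intro M _ _ _
    exact ⟨0, by simp, by simp⟩
  | succ j ih =>
    intro M hM hcard hcount
    by_cases hopp : ∃ b ∈ M, -b ∈ M
    · obtain ⟨b, hb, hb'⟩ := hopp
      obtain ⟨hb0, hbL⟩ := hM b hb
      obtain ⟨M1, rfl⟩ := Multiset.exists_cons_of_mem hb
      have hb1 : -b ∈ M1 := by
        rcases Multiset.mem_cons.mp hb' with h | h
        · omega
        · exact h
      obtain ⟨M2, rfl⟩ := Multiset.exists_cons_of_mem hb1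
      obtain ⟨m, hm1, hm2⟩ := ih M2
        (fun c hc => hM c (Multiset.mem_cons_of_mem (Multiset.mem_cons_of_mem hc)))
        (by rw [Multiset.card_cons, Multiset.card_cons] at hcard; omega) (by
          intro l
          obtain ⟨h1, h2⟩ := hcount l
          have hne := sin_ne_zero hL hb0 hbL l
          unfold npos at h1 ⊢
          unfold nneg at h2 ⊢
          rw [Multiset.countP_cons, Multiset.countP_cons] at h1 h2
          have hneg : Real.sin (2 * Real.pi * (((-b : ℤ) : ℝ) * τ L l)) =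
              - Real.sin (2 * Real.pi * (b * τ L l)) := by
            rw [← Real.sin_neg]; congr 1; push_cast; ring
          simp only [hneg, Left.neg_pos_iff, Left.neg_neg_iff] at h1 h2
          rcases lt_or_gt_of_ne hne with h | h
          · rw [if_pos h, if_neg (not_lt.mpr h.le)] at h1
            rw [if_pos h, if_neg (not_lt.mpr h.le)] at h2
            omega
          · rw [if_pos h, if_neg (not_lt.mpr h.le)] at h1
            rw [if_pos h, if_neg (not_lt.mpr h.le)] at h2
            omega)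
      refine ⟨b ::ₘ m, by rw [Multiset.card_cons, hm1], ?_⟩
      rw [Multiset.map_cons, Multiset.cons_add, Multiset.add_cons]
      exact Multiset.cons_le_cons _ (Multiset.cons_le_cons _ hm2)
    · exfalso
      push Not at hopp
      have h1 := card_le_one hL hM hopp (by
        intro l
        obtain ⟨h1, h2⟩ := hcount l
        have h3 := npos_add_nneg_le M (τ L l)
        rw [F_eq, abs_le]
        have h4 : (npos M (τ L l) : ℝ) ≤ nneg M (τ L l) + 1 := by
          have : npos M (τ L l) ≤ nneg M (τ L l) + 1 := by omega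
          exact_mod_cast this
        have h5 : (nneg M (τ L l) : ℝ) ≤ npos M (τ L l) + 1 := by
          have : nneg M (τ L l) ≤ npos M (τ L l) + 1 := by omega
          exact_mod_cast this
        constructor <;> linarith)
      obtain ⟨h2, h3⟩ := hcount 0
      have h4 := npos_add_nneg_le M (τ L 0)
      omega

end Pool.Agent.UpperHalf
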