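import Pool.Agent.FermatFam.Main
import Pool.Agent.UpperHalf.Wave

/-!
# Vectors of residues all of whose unit multiples are balanced
-/

set_option autoImplicit false

open Finset

namespace Pool.Agent.UpperHalf

open Pool.Agent.FermatFam

/-- The open set of the vectors without half integral coordinates such that less than `j` of the
sines are positive, or less than `j` are negative. -/
def badSet (k j : ℕ) : Set (Fin k → ℝ) :=
  {x | (∀ i, Real.sin (2 * Real.pi * x i) ≠ 0) ∧
    ¬ (j ≤ #{i | 0 < Real.sin (2 * Real.pi * x i)} ∧ j ≤ #{i | Real.sin (2 * Real.pi * x i) < 0})}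

theorem badSet_open (k j : ℕ) : OpenPeriodic (badSet k j) := by
  rintro x ⟨hx, hcount⟩
  have h1 : ∀ i, ∃ ε > 0, ∀ t : ℝ, |t| < ε →
      0 < Real.sin (2 * Real.pi * (x i + t)) * Real.sin (2 * Real.pi * x i) := by
    intro i
    have hc : ContinuousAt (fun t : ℝ => Real.sin (2 * Real.pi * (x i + t)) *
        Real.sin (2 * Real.pi * x i)) 0 := by fun_prop
    have hpos : 0 < Real.sin (2 * Real.pi * (x i + 0)) * Real.sin (2 * Real.pi * x i) := by
      rw [add_zero]
      exact mul_self_pos.mpr (hx i)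
    obtain ⟨ε, hε, h⟩ := Metric.eventually_nhds_iff.mp (hc.eventually (lt_mem_nhds hpos))
    refine ⟨ε, hε, fun t ht => h ?_⟩
    rwa [Real.dist_eq, sub_zero]
  choose ε hε h using h1
  obtain ⟨ε0, hε0, hle⟩ := exists_pos_le ε hε
  refine ⟨ε0, hε0, fun η hη z => ?_⟩
  have h2 : ∀ i, 0 < Real.sin (2 * Real.pi * (x i + η i + z i)) *
      Real.sin (2 * Real.pi * x i) := by
    intro i
    have e : 2 * Real.pi * (x i + η i + z i) = 2 * Real.pi * (x i + η i) + z i * (2 * Real.pi) := by
      ring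
    rw [e, Real.sin_add_int_mul_two_pi]
    exact h i _ (lt_of_lt_of_le (hη i) (hle i))
  have h3 : ∀ i, (0 < Real.sin (2 * Real.pi * (x i + η i + z i)) ↔
      0 < Real.sin (2 * Real.pi * x i)) := by
    intro i
    rcases mul_pos_iff.mp (h2 i) with h | h
    · exact ⟨fun _ => h.2, fun _ => h.1⟩
    · exact ⟨fun h' => absurd h' (not_lt.mpr h.1.le), fun h' => absurd h' (not_lt.mpr h.2.le)⟩
  have h4 : ∀ i, (Real.sin (2 * Real.pi * (x i + η i + z i)) < 0 ↔
      Real.sin (2 * Real.pi * x i) < 0) := by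
    intro i
    rcases mul_pos_iff.mp (h2 i) with h | h
    · exact ⟨fun h' => absurd h' (not_lt.mpr h.1.le), fun h' => absurd h' (not_lt.mpr h.2.le)⟩
    · exact ⟨fun _ => h.2, fun _ => h.1⟩
  refine ⟨fun i => left_ne_zero_of_mul (h2 i).ne', ?_⟩
  simp only [h3, h4]
  exact hcount

/-- A vector on which finitely many nonzero linear forms do not vanish. -/
theorem exists_generic {r : ℕ} (W : Finset (Fin r → ℤ)) (hW : ∀ x ∈ W, x ≠ 0) :
    ∃ v : Fin r → ℤ, ∀ x ∈ W, ∑ i, x i * v i ≠ 0 := by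
  classical
  let f : (Fin r → ℤ) → MvPolynomial (Fin r) ℤ := fun x =>
    ∑ i, MvPolynomial.C (x i) * MvPolynomial.X i
  have hev : ∀ x v, MvPolynomial.eval v (f x) = ∑ i, x i * v i := by
    intro x v
    simp [f]
  have hf : ∀ x ∈ W, f x ≠ 0 := by
    intro x hx h0
    apply hW x hx
    funext i
    have h1 := hev x (Pi.single i 1)
    rw [h0, map_zero] at h1
    rw [Finset.sum_eq_single i (fun l _ hl => by rw [Pi.single_eq_of_ne hl, mul_zero])
      (fun h => absurd (Finset.mem_univ i) h), Pi.single_eq_same, mul_one] at h1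
    exact h1.symm
  have hprod : ∏ x ∈ W, f x ≠ 0 := Finset.prod_ne_zero_iff.mpr hf
  by_contra hcon
  push Not at hcon
  apply hprod
  apply MvPolynomial.funext
  intro v
  obtain ⟨x, hx, hx0⟩ := hcon v
  rw [map_prod, map_zero]
  exact Finset.prod_eq_zero hx (by rw [hev, hx0])

/-- The set of exceptional divisors for vectors of length `k`. -/
theorem comb_aux (k j : ℕ) (hkj : k ≤ 2 * j + 1) : ∃ D : Finset ℕ, (∀ d ∈ D, 1 < d) ∧
    ∀ N : ℕ, 0 < N → (∀ d ∈ D, ¬ d ∣ N) → ∀ a : Fin k → ℤ, (∀ i, ¬ (N : ℤ) ∣ a i) →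
      (∀ t : ℤ, IsCoprime t (N : ℤ) →
        j ≤ #{i | 0 < Real.sin (2 * Real.pi * ((t * a i : ℝ) / N))} ∧
        j ≤ #{i | Real.sin (2 * Real.pi * ((t * a i : ℝ) / N)) < 0}) →
      ∃ b : Fin k → ℤ, (∀ i l, b i = b l → (N : ℤ) ∣ a i - a l) ∧
        (∀ i l, b i = - b l → (N : ℤ) ∣ a i + a l) ∧
        ∃ m : Multiset ℤ, m.card = j ∧
          m + m.map (fun c => -c) ≤ (Finset.univ : Finset (Fin k)).val.map b := by
  classical
  obtain ⟨Fs, hfin, hFs, hcov⟩ := main_families (badSet k j) (badSet_open k j) k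
    (fun i l => if i = l then 1 else 0) 1 (fun _ => 0) one_pos
  refine ⟨(hfin.toFinset.image Family.q).filter (fun d => 1 < d),
    fun d hd => (Finset.mem_filter.mp hd).2, fun N hN hD a ha hcount => ?_⟩
  obtain ⟨A, hA, hmem⟩ := hcov N hN a ⟨one_dvd _, a, fun i => by simp⟩
    (fun t ht hbad => hbad.2 (hcount t ht))
  obtain ⟨hq0, havoid, -⟩ := hFs A hA
  obtain ⟨hqN, κ, hκ⟩ := hmem
  have hq1 : A.q = 1 := by
    by_contra hne
    refine hD A.q ?_ hqN
    rw [Finset.mem_filter, Finset.mem_image]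
    exact ⟨⟨A, hfin.mem_toFinset.mpr hA, rfl⟩, by omega⟩
  have hκ' : ∀ i, (N : ℤ) ∣ a i - ∑ l, A.B i l * κ l := by
    intro i
    have h1 := hκ i
    rw [hq1, Nat.div_one] at h1
    have h2 : a i - ∑ l, A.B i l * κ l = (a i - (∑ l, A.B i l * κ l + (N : ℤ) * A.c i)) +
        N * A.c i := by ring
    rw [h2]
    exact dvd_add h1 (dvd_mul_right _ _)
  -- a generic line
  let W : Finset (Fin A.r → ℤ) := ((Finset.univ.image fun i => A.B i) ∪
    (Finset.univ.image fun p : Fin k × Fin k => A.B p.1 - A.B p.2) ∪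
    (Finset.univ.image fun p : Fin k × Fin k => A.B p.1 + A.B p.2)).filter (fun x => x ≠ 0)
  obtain ⟨v, hv⟩ := exists_generic W (fun x hx => (Finset.mem_filter.mp hx).2)
  let b : Fin k → ℤ := fun i => ∑ l, A.B i l * v l
  have hb1 : ∀ i, b i ≠ 0 := by
    intro i
    refine hv (A.B i) (Finset.mem_filter.mpr ⟨?_, ?_⟩)
    · exact Finset.mem_union_left _ (Finset.mem_union_left _
        (Finset.mem_image_of_mem _ (Finset.mem_univ i)))
    · intro h0
      apply ha i
      have h1 := hκ' i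
      simpa [h0] using h1
  have hb2 : ∀ i l, b i = b l → A.B i = A.B l := by
    intro i l h
    by_contra hne
    refine hv (A.B i - A.B l) (Finset.mem_filter.mpr ⟨?_, sub_ne_zero.mpr hne⟩) ?_
    · exact Finset.mem_union_left _ (Finset.mem_union_right _
        (Finset.mem_image.mpr ⟨(i, l), Finset.mem_univ _, rfl⟩))
    · simp only [Pi.sub_apply, sub_mul, Finset.sum_sub_distrib]
      exact sub_eq_zero.mpr h
  have hb3 : ∀ i l, b i = - b l → A.B i + A.B l = 0 := by
    intro i l h
    by_contra hne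
    refine hv (A.B i + A.B l) (Finset.mem_filter.mpr ⟨?_, hne⟩) ?_
    · exact Finset.mem_union_right _
        (Finset.mem_image.mpr ⟨(i, l), Finset.mem_univ _, rfl⟩)
    · simp only [Pi.add_apply, add_mul, Finset.sum_add_distrib]
      exact (by rw [← sub_neg_eq_add]; exact sub_eq_zero.mpr h : b i + b l = 0)
  refine ⟨b, fun i l h => ?_, fun i l h => ?_, ?_⟩
  · have h1 := dvd_sub (hκ' i) (hκ' l)
    rw [hb2 i l h] at h1
    have e : a i - a l = (a i - ∑ x, A.B l x * κ x) - (a l - ∑ x, A.B l x * κ x) := by ring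
    rw [e]
    exact h1
  · have h1 := dvd_add (hκ' i) (hκ' l)
    have h2 : ∑ x, A.B i x * κ x + ∑ x, A.B l x * κ x = 0 := by
      rw [← Finset.sum_add_distrib]
      refine Finset.sum_eq_zero fun x _ => ?_
      rw [← add_mul]
      have := congrFun (hb3 i l h) x
      rw [Pi.add_apply, Pi.zero_apply] at this
      rw [this, zero_mul]
    have e : a i + a l = (a i - ∑ x, A.B i x * κ x) + (a l - ∑ x, A.B l x * κ x) +
        (∑ x, A.B i x * κ x + ∑ x, A.B l x * κ x) := by ring
    rw [e, h2, add_zero]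
    exact h1
  · set M : Multiset ℤ := (Finset.univ : Finset (Fin k)).val.map b with hM
    set L : ℕ := ∏ i, (b i).natAbs with hL
    have hLpos : 0 < L := Finset.prod_pos fun i _ => Int.natAbs_pos.mpr (hb1 i)
    refine pairs hLpos j M ?_ ?_ ?_
    · intro c hc
      obtain ⟨i, -, rfl⟩ := Multiset.mem_map.mp hc
      refine ⟨hb1 i, ?_⟩
      rw [← Int.natAbs_dvd]
      exact_mod_cast Finset.dvd_prod_of_mem _ (Finset.mem_univ i)
    · rw [hM, Multiset.card_map, Finset.card_val, Finset.card_univ, Fintype.card_fin]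
      exact hkj
    · intro l
      have h1 := havoid (fun x => τ L l * v x) 0 (by rw [hq1]; exact isCoprime_one_right)
      have h2 : ∀ i, A.point (fun x => τ L l * v x) 0 i = b i * τ L l := by
        intro i
        unfold Family.point
        simp only [b]
        push_cast
        rw [zero_mul, zero_div, add_zero, Finset.sum_mul]
        exact Finset.sum_congr rfl fun x _ => by ring
      have h3 : ∀ i, Real.sin (2 * Real.pi * (b i * τ L l)) ≠ 0 := by
        intro i
        refine sin_ne_zero hLpos (hb1 i) ?_ l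
        rw [← Int.natAbs_dvd]
        exact_mod_cast Finset.dvd_prod_of_mem _ (Finset.mem_univ i)
      by_contra hcon
      apply h1
      refine ⟨fun i => by rw [h2]; exact h3 i, ?_⟩
      simp only [h2]
      intro h4
      apply hcon
      unfold npos nneg
      rw [hM, Multiset.countP_map, Multiset.countP_map]
      exact h4

/-- The set of exceptional divisors for vectors of length `k`. -/
theorem comb (k : ℕ) : ∃ D : Finset ℕ, (∀ d ∈ D, 1 < d) ∧
    ∀ N : ℕ, 0 < N → (∀ d ∈ D, ¬ d ∣ N) → ∀ j : ℕ, k ≤ 2 * j + 1 →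
      ∀ a : Fin k → ℤ, (∀ i, ¬ (N : ℤ) ∣ a i) →
      (∀ t : ℤ, IsCoprime t (N : ℤ) →
        j ≤ #{i | 0 < Real.sin (2 * Real.pi * ((t * a i : ℝ) / N))} ∧
        j ≤ #{i | Real.sin (2 * Real.pi * ((t * a i : ℝ) / N)) < 0}) →
      ∃ b : Fin k → ℤ, (∀ i l, b i = b l → (N : ℤ) ∣ a i - a l) ∧
        (∀ i l, b i = - b l → (N : ℤ) ∣ a i + a l) ∧
        ∃ m : Multiset ℤ, m.card = j ∧
          m + m.map (fun c => -c) ≤ (Finset.univ : Finset (Fin k)).val.map b := by
  classical
  obtain ⟨D, hD, h⟩ := comb_aux k (k / 2) (by omega)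
  refine ⟨D, hD, fun N hN hDN j hj a ha hcount => ?_⟩
  have h1 : 2 * j ≤ k := by
    obtain ⟨h1, h2⟩ := hcount 1 isCoprime_one_left
    have h3 : #{i | 0 < Real.sin (2 * Real.pi * ((((1 : ℤ) : ℝ) * a i : ℝ) / N))} +
        #{i | Real.sin (2 * Real.pi * ((((1 : ℤ) : ℝ) * a i : ℝ) / N)) < 0} ≤ k := by
      rw [← Finset.card_union_of_disjoint]
      · calc _ ≤ #(Finset.univ : Finset (Fin k)) := Finset.card_le_card (Finset.subset_univ _)
          _ = k := by simp
      · rw [Finset.disjoint_filter]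
        intro i _ h4 h5
        exact lt_asymm h4 h5
    omega
  have h2 : j = k / 2 := by omega
  subst h2
  exact h N hN hDN a ha hcount

end Pool.Agent.UpperHalf
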