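import Pool.Agent.GHC.Final
import Pool.Agent.GHC.FieldExt

/-!
# Automorphisms of finite order of abelian varieties with eigenvalues in the upper half plane
-/

set_option autoImplicit false

universe u

open Polynomial

namespace Pool.Agent.UpperHalf

open Complex Pool.Agent.GHC

section Roots

/-- The roots of unity of order `N`. -/
noncomputable def ee (N : ℕ) (a : ℤ) : ℂ := exp (2 * Real.pi * I * (a / N))

theorem ee_im (N : ℕ) (a : ℤ) : (ee N a).im = Real.sin (2 * Real.pi * (a / N)) := by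
  unfold ee
  have : (2 * Real.pi * I * (a / N) : ℂ) = ((2 * Real.pi * (a / N) : ℝ) : ℂ) * I := by
    push_cast; ring
  rw [this, Complex.exp_ofReal_mul_I_im]

theorem ee_neg (N : ℕ) (a : ℤ) : (starRingEnd ℂ) (ee N a) = ee N (-a) := by
  unfold ee
  rw [← Complex.exp_conj]
  congr 1
  simp only [map_mul, map_div₀, conj_I, conj_ofReal, map_ofNat, map_intCast, map_natCast]
  push_cast
  ring

theorem ee_eq (N : ℕ) (a : ℤ) :
    ee N a = (exp (2 * Real.pi * I / N)) ^ a := by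
  unfold ee
  rw [← Complex.exp_int_mul]
  congr 1
  ring

theorem ee_congr {N : ℕ} (hN : 0 < N) {a b : ℤ} (h : (N : ℤ) ∣ a - b) : ee N a = ee N b := by
  obtain ⟨c, hc⟩ := h
  have hNC : (N : ℂ) ≠ 0 := by exact_mod_cast hN.ne'
  unfold ee
  rw [Complex.exp_eq_exp_iff_exists_int]
  refine ⟨c, ?_⟩
  have : (a : ℂ) = b + N * c := by
    have : a = b + N * c := by linarith
    exact_mod_cast this
  rw [this]
  field_simp

theorem exists_ee {N : ℕ} (hN : 0 < N) {z : ℂ} (hz : z ^ N = 1) : ∃ a : ℤ, z = ee N a := by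
  have : NeZero N := ⟨hN.ne'⟩
  obtain ⟨i, -, hi⟩ := (Complex.isPrimitiveRoot_exp N hN.ne').eq_pow_of_pow_eq_one hz
  refine ⟨i, ?_⟩
  rw [ee_eq N, zpow_natCast]
  exact hi.symm

theorem exists_sigma {N : ℕ} (hN : 0 < N) {t : ℤ} (ht : IsCoprime t (N : ℤ)) :
    ∃ σ : ℂ →+* ℂ, ∀ a : ℤ, σ (ee N a) = ee N (t * a) := by
  set ζ : ℂ := exp (2 * Real.pi * I / N) with hζ
  have hprim : IsPrimitiveRoot ζ N := Complex.isPrimitiveRoot_exp N hN.ne'
  set t' : ℕ := (t % N).toNat with ht'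
  have hNZ : (0 : ℤ) < N := by exact_mod_cast hN
  have ht'' : (t' : ℤ) = t % N := Int.toNat_of_nonneg (Int.emod_nonneg t hNZ.ne')
  have hcop : t'.Coprime N := by
    rw [← Nat.isCoprime_iff_coprime, ht'']
    have h1 : t % N = t + N * (-(t / N)) := by
      have := Int.emod_add_mul_ediv t N
      linarith
    rw [h1]
    exact IsCoprime.add_mul_left_left ht _
  have hprim' : IsPrimitiveRoot (ζ ^ t') N := hprim.pow_of_coprime t' hcop
  have hint : IsIntegral ℚ ζ := (hprim.isIntegral hN).tower_top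
  have hmin : minpoly ℚ ζ = minpoly ℚ (ζ ^ t') := by
    rw [← Polynomial.cyclotomic_eq_minpoly_rat hprim hN,
      ← Polynomial.cyclotomic_eq_minpoly_rat hprim' hN]
  have hroot : Polynomial.aeval (ζ ^ t') (minpoly ℚ ζ) = 0 := by
    rw [hmin]
    exact minpoly.aeval ℚ _
  let f : IntermediateField.adjoin ℚ {ζ} →ₐ[ℚ] ℂ :=
    (IntermediateField.algHomAdjoinIntegralEquiv ℚ hint).symm
      ⟨ζ ^ t', Polynomial.mem_aroots.mpr ⟨minpoly.ne_zero hint, hroot⟩⟩
  have hf : f (IntermediateField.AdjoinSimple.gen ℚ ζ) = ζ ^ t' :=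
    IntermediateField.algHomAdjoinIntegralEquiv_symm_apply_gen ℚ hint _
  have h2 : Algebra.IsAlgebraic ℚ (IntermediateField.adjoin ℚ {ζ}) :=
    IntermediateField.isAlgebraic_adjoin_simple hint
  obtain ⟨σ, hσ⟩ := exists_extension (K := IntermediateField.adjoin ℚ {ζ}) f.toRingHom
  have h3 : σ ζ = ζ ^ t' := by
    have h4 := hσ (IntermediateField.AdjoinSimple.gen ℚ ζ)
    change σ _ = f _ at h4
    rw [hf, IntermediateField.AdjoinSimple.algebraMap_gen] at h4
    exact h4
  refine ⟨σ, fun a => ?_⟩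
  rw [ee_eq N a, map_zpow₀, ← hζ, h3, ← zpow_natCast, ← zpow_mul, hζ, ← ee_eq N]
  refine ee_congr hN ?_
  rw [ht'', ← sub_mul]
  refine Dvd.dvd.mul_right ?_ a
  exact (Int.mod_modEq t N).symm.dvd

end Roots

section CM

variable {V : Type u} [NormedAddCommGroup V] [NormedSpace ℂ V]

/-- The action of polynomials in an endomorphism. -/
noncomputable def ρT (T : V →L[ℂ] V) : ℤ[X] →+* (V →L[ℂ] V) :=
  (Polynomial.aeval T : ℤ[X] →ₐ[ℤ] (V →L[ℂ] V)).toRingHom

theorem ρT_X (T : V →L[ℂ] V) : ρT T X = T := by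
  simp [ρT]

theorem ρT_C (T : V →L[ℂ] V) (a : ℤ) (v : V) : ρT T (C a) v = a • v := by
  have : ρT T (C a) = (a : V →L[ℂ] V) := by
    simp [ρT]
  rw [this]
  exact congrFun (congrArg DFunLike.coe (zsmul_one a : a • (1 : V →L[ℂ] V) = _).symm) v

theorem mem_eigen_iff (T : V →L[ℂ] V) (φ : ℤ[X] →+* ℂ) (v : V) :
    v ∈ eigen (ρT T) φ ↔ T v = φ X • v := by
  constructor
  · intro h
    have := h X
    rwa [ρT_X] at this
  · intro h r
    induction r using Polynomial.induction_on with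
    | C a =>
      have h1 : φ (C a) = a := by
        have h2 : (C a : ℤ[X]) = (a : ℤ[X]) := by simp
        rw [h2, map_intCast]
      rw [ρT_C, ← Int.cast_smul_eq_zsmul ℂ a v, h1]
    | add p q hp hq =>
      rw [_root_.map_add, _root_.map_add, _root_.add_apply, hp, hq, add_smul]
    | monomial n a ih =>
      have h1 : (C a * X ^ (n + 1) : ℤ[X]) = X * (C a * X ^ n) := by ring
      have h2 : ρT T (X * (C a * X ^ n)) v = ρT T X (ρT T (C a * X ^ n) v) := by
        rw [map_mul (ρT T) X (C a * X ^ n)]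
        rfl
      rw [h1, h2, ih, ρT_X, _root_.map_smul, h, smul_smul, map_mul φ X (C a * X ^ n), mul_comm]

/-- The average of a form over the powers of `T`. -/
noncomputable def avg (E : V →L[ℝ] V →L[ℝ] ℝ) (T : V →L[ℂ] V) (N : ℕ) : V →L[ℝ] V →L[ℝ] ℝ :=
  ∑ i ∈ Finset.range N, E.bilinearComp ((T ^ i).restrictScalars ℝ) ((T ^ i).restrictScalars ℝ)

theorem avg_apply (E : V →L[ℝ] V →L[ℝ] ℝ) (T : V →L[ℂ] V) (N : ℕ) (u v : V) :
    avg E T N u v = ∑ i ∈ Finset.range N, E ((T ^ i) u) ((T ^ i) v) := by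
  simp [avg, _root_.sum_apply, ContinuousLinearMap.bilinearComp_apply]

theorem avg_inv (E : V →L[ℝ] V →L[ℝ] ℝ) {T : V →L[ℂ] V} {N : ℕ} (hTN : T ^ N = 1) (u v : V) :
    avg E T N (T u) (T v) = avg E T N u v := by
  rw [avg_apply, avg_apply]
  have h1 : ∀ (i : ℕ) (x : V), (T ^ i) (T x) = (T ^ (i + 1)) x := by
    intro i x
    rw [pow_succ]
    rfl
  simp only [h1]
  have h2 := Finset.sum_range_succ (fun i => E ((T ^ i) u) ((T ^ i) v)) N
  have h3 := Finset.sum_range_succ' (fun i => E ((T ^ i) u) ((T ^ i) v)) N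
  rw [hTN] at h2
  rw [pow_zero] at h3
  linarith

variable {Λ : Submodule ℤ V} {E : V →L[ℝ] V →L[ℝ] ℝ} {T : V →L[ℂ] V} {N : ℕ}

theorem pow_mem (hTΛ : ∀ l ∈ Λ, T l ∈ Λ) (i : ℕ) : ∀ l ∈ Λ, (T ^ i) l ∈ Λ := by
  induction i with
  | zero => intro l hl; simpa using hl
  | succ i ih =>
    intro l hl
    rw [pow_succ]
    exact ih _ (hTΛ l hl)

theorem avg_riemann (hE : IsRiemannForm Λ E) (hN : 0 < N) (hTΛ : ∀ l ∈ Λ, T l ∈ Λ)
    (hTN : T ^ N = 1) : IsRiemannForm Λ (avg E T N) where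
  alt v := by
    rw [avg_apply]
    exact Finset.sum_eq_zero fun i _ => hE.alt _
  integral u hu v hv := by
    choose n hn using fun i : ℕ => hE.integral _ (pow_mem hTΛ i u hu) _ (pow_mem hTΛ i v hv)
    refine ⟨∑ i ∈ Finset.range N, n i, ?_⟩
    rw [avg_apply, Int.cast_sum]
    exact Finset.sum_congr rfl fun i _ => hn i
  compat u v := by
    rw [avg_apply, avg_apply]
    refine Finset.sum_congr rfl fun i _ => ?_
    have e : ∀ x, (T ^ i) (I • x) = I • (T ^ i) x := fun x => (T ^ i).map_smul I x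
    rw [e, e, hE.compat]
  pos v hv := by
    rw [avg_apply]
    have h1 : ∀ i ∈ Finset.range N, 0 < E ((T ^ i) (I • v)) ((T ^ i) v) := by
      intro i hi
      have e : ∀ x, (T ^ i) (I • x) = I • (T ^ i) x := fun x => (T ^ i).map_smul I x
      rw [e]
      refine hE.pos _ fun h0 => hv ?_
      have h2 : (T ^ (N - i)) ((T ^ i) v) = v := by
        have h3 : T ^ (N - i) * T ^ i = 1 := by
          rw [← pow_add, Nat.sub_add_cancel (Finset.mem_range.mp hi).le, hTN]
        exact congrArg (fun f : V →L[ℂ] V => f v) h3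
      rw [← h2, h0, _root_.map_zero]
    exact Finset.sum_pos h1 ⟨0, Finset.mem_range.mpr hN⟩

theorem rho_mem (hTΛ : ∀ l ∈ Λ, T l ∈ Λ) (r : ℤ[X]) : ∀ l ∈ Λ, ρT T r l ∈ Λ := by
  induction r using Polynomial.induction_on with
  | C a =>
    intro l hl
    rw [ρT_C]
    exact Λ.smul_mem a hl
  | add p q hp hq =>
    intro l hl
    rw [_root_.map_add, _root_.add_apply]
    exact Λ.add_mem (hp l hl) (hq l hl)
  | monomial n a ih =>
    intro l hl
    have h1 : (C a * X ^ (n + 1) : ℤ[X]) = X * (C a * X ^ n) := by ring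
    have h2 : ρT T (X * (C a * X ^ n)) l = ρT T X (ρT T (C a * X ^ n) l) := by
      rw [map_mul (ρT T) X (C a * X ^ n)]
      rfl
    rw [h1, h2, ρT_X]
    exact hTΛ _ (ih l hl)

/-- the Rosati involution -/
theorem rosati_aux (hN : 0 < N) (hTN : T ^ N = 1) (r : ℤ[X]) : ∃ r' : ℤ[X], ∀ u v,
    avg E T N (ρT T r u) v = avg E T N u (ρT T r' v) := by
  have hT : ∀ x, T ((T ^ (N - 1)) x) = x := by
    intro x
    have h3 : T * T ^ (N - 1) = 1 := by
      rw [← pow_succ', Nat.sub_add_cancel hN, hTN]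
    exact congrArg (fun f : V →L[ℂ] V => f x) h3
  have h0 : ∀ u v, avg E T N (T u) v = avg E T N u ((T ^ (N - 1)) v) := by
    intro u v
    conv_lhs => rw [← hT v]
    exact avg_inv E hTN _ _
  induction r using Polynomial.induction_on with
  | C a =>
    refine ⟨C a, fun u v => ?_⟩
    rw [ρT_C, ρT_C, map_zsmul, map_zsmul]
    rfl
  | add p q hp hq =>
    obtain ⟨p', hp'⟩ := hp
    obtain ⟨q', hq'⟩ := hq
    refine ⟨p' + q', fun u v => ?_⟩
    rw [_root_.map_add, _root_.add_apply, _root_.map_add, _root_.map_add, _root_.add_apply,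
      _root_.add_apply, _root_.map_add, hp', hq']
  | monomial n a ih =>
    obtain ⟨r', hr'⟩ := ih
    refine ⟨r' * X ^ (N - 1), fun u v => ?_⟩
    have h1 : (C a * X ^ (n + 1) : ℤ[X]) = X * (C a * X ^ n) := by ring
    have h2 : ρT T (X * (C a * X ^ n)) u = ρT T X (ρT T (C a * X ^ n) u) := by
      rw [map_mul (ρT T) X (C a * X ^ n)]
      rfl
    have h3 : ρT T (r' * X ^ (N - 1)) v = ρT T r' ((T ^ (N - 1)) v) := by
      rw [map_mul (ρT T) r' (X ^ (N - 1)), map_pow, ρT_X]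
      rfl
    rw [h1, h2, h3, ρT_X, h0, hr']

theorem eigen_im (hT : ∀ (z : ℂ) (v : V), v ≠ 0 → T v = z • v → 0 < z.im) {φ : ℤ[X] →+* ℂ}
    (hφ : eigen (ρT T) φ ≠ ⊥) : 0 < (φ X).im := by
  obtain ⟨v, hv, hv0⟩ := Submodule.exists_mem_ne_zero_of_ne_bot hφ
  exact hT _ v hv0 ((mem_eigen_iff T φ v).mp hv)

theorem eigen_pow (hTN : T ^ N = 1) {φ : ℤ[X] →+* ℂ} (hφ : eigen (ρT T) φ ≠ ⊥) :
    (φ X) ^ N = 1 := by
  obtain ⟨v, hv, hv0⟩ := Submodule.exists_mem_ne_zero_of_ne_bot hφ
  have h1 : ∀ n : ℕ, (T ^ n) v = (φ X) ^ n • v := by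
    intro n
    induction n with
    | zero => simp
    | succ n ih =>
      rw [pow_succ']
      change T ((T ^ n) v) = _
      rw [ih, _root_.map_smul, (mem_eigen_iff T φ v).mp hv, smul_smul, pow_succ]
  have h2 := h1 N
  rw [hTN] at h2
  have h3 : ((φ X) ^ N - 1) • v = 0 := by
    rw [sub_smul, ← h2, one_smul]
    exact sub_self _
  rcases smul_eq_zero.mp h3 with h | h
  · exact sub_eq_zero.mp h
  · exact absurd h hv0

theorem hasCM [FiniteDimensional ℂ V] (hE : IsRiemannForm Λ E) (hN : 0 < N)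
    (hTΛ : ∀ l ∈ Λ, T l ∈ Λ) (hTN : T ^ N = 1)
    (hT : ∀ (z : ℂ) (v : V), v ≠ 0 → T v = z • v → 0 < z.im) : HasCM Λ (avg E T N) (ρT T) where
  riemann := avg_riemann hE hN hTΛ hTN
  rational r l hl := ⟨1, one_ne_zero, by rw [one_smul]; exact rho_mem hTΛ r l hl⟩
  rosati r := rosati_aux hN hTN r
  diagonalizable := by
    let f : Module.End ℂ V := (T : V →ₗ[ℂ] V)
    have hf : f ^ N = 1 := by
      apply LinearMap.ext
      intro v
      have h1 : ∀ n : ℕ, (f ^ n) v = (T ^ n) v := by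
        intro n
        induction n with
        | zero => simp
        | succ n ih =>
          rw [pow_succ', pow_succ']
          change f ((f ^ n) v) = T ((T ^ n) v)
          rw [ih]
          rfl
      rw [h1, hTN]
      rfl
    have hss : f.IsSemisimple := by
      refine Module.End.isSemisimple_of_squarefree_aeval_eq_zero (p := (X ^ N - 1 : ℂ[X])) ?_ ?_
      · have h1 : (X ^ N - C (1 : ℂ)).Separable :=
          Polynomial.separable_X_pow_sub_C 1 (by exact_mod_cast hN.ne') one_ne_zero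
        rw [C_1] at h1
        exact h1.squarefree
      · simp [hf]
    rw [eq_top_iff, ← hss.iSup_eigenspace_eq_top]
    refine iSup_le fun μ => ?_
    refine le_trans ?_ (le_iSup _ ((Polynomial.eval₂RingHom (Int.castRingHom ℂ) μ)))
    intro v hv
    rw [mem_eigen_iff]
    have h1 : T v = μ • v := Module.End.mem_eigenspace_iff.mp hv
    simpa using h1
  cmType φ hφ := by
    by_contra hcon
    have h1 := eigen_im hT hφ
    have h2 := eigen_im hT hcon
    have h3 : (cj φ X).im = - (φ X).im := by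
      simp [cj]
    rw [h3] at h2
    linarith

end CM

end Pool.Agent.UpperHalf
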