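import Pool.Agent.UpperHalf.CM
import Pool.Agent.UpperHalf.Comb

/-!
# The generalized Hodge conjecture in level at most one for abelian varieties with an automorphism
of order `N` with eigenvalues in the upper half plane
-/

set_option autoImplicit false

universe u

open Polynomial

namespace Pool.Agent.UpperHalf

open Complex Pool.Agent.GHC

theorem exists_fin_map {α : Type*} {k : ℕ} (l : Multiset α) (h : l.card = k) :
    ∃ c : Fin k → α, (Finset.univ : Finset (Fin k)).val.map c = l := by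
  obtain ⟨L, rfl⟩ : ∃ L : List α, (L : Multiset α) = l := Quot.exists_rep l
  have h' : L.length = k := h
  clear h
  subst h'
  refine ⟨L.get, ?_⟩
  rw [Fin.univ_val_map]
  exact congrArg _ (List.ofFn_get L)

theorem char_ext {φ ψ : ℤ[X] →+* ℂ} (h : φ X = ψ X) : φ = ψ := by
  refine Polynomial.ringHom_ext (fun a => ?_) h
  have h2 : (C a : ℤ[X]) = (a : ℤ[X]) := by simp
  rw [h2, map_intCast, map_intCast]

theorem ghc_upper (k : ℕ) : ∃ D : Finset ℕ, (∀ d ∈ D, 1 < d) ∧
    ∀ {V : Type u} [NormedAddCommGroup V] [NormedSpace ℂ V] [FiniteDimensional ℂ V]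
      {Λ : Submodule ℤ V} [DiscreteTopology Λ] [IsZLattice ℝ Λ] {E : V →L[ℝ] V →L[ℝ] ℝ}
      (_ : IsRiemannForm Λ E) (T : V →L[ℂ] V) (N : ℕ), 0 < N → (∀ d ∈ D, ¬ d ∣ N) →
      (∀ l ∈ Λ, T l ∈ Λ) → T ^ N = 1 →
      (∀ (z : ℂ) (v : V), v ≠ 0 → T v = z • v → 0 < z.im) →
      ∀ j : ℕ, k ≤ 2 * j + 1 → GeneralizedHodge Λ j k := by
  classical
  obtain ⟨D, hD, hcomb⟩ := comb k
  refine ⟨D, hD, ?_⟩
  intro V _ _ _ Λ _ _ E hE T N hN hDN hTΛ hTN hT j hj
  have h := hasCM hE hN hTΛ hTN hT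
  refine h.ghc ?_
  intro l hl hmem hσ
  obtain ⟨c, hc⟩ := exists_fin_map l hl
  have hcl : ∀ i, c i ∈ l := by
    intro i
    rw [← hc]
    exact Multiset.mem_map_of_mem c (Finset.mem_univ i)
  -- signs of imaginary parts
  have him : ∀ φ : ℤ[X] →+* ℂ, (eigen (ρT T) φ ≠ ⊥ ∨ eigen (ρT T) (cj φ) ≠ ⊥) →
      (eigen (ρT T) φ ≠ ⊥ ↔ 0 < (φ X).im) ∧ (¬ eigen (ρT T) φ ≠ ⊥ ↔ (φ X).im < 0) := by
    intro φ hφ
    have h3 : (cj φ X).im = - (φ X).im := by
      simp [cj]
    by_cases h1 : eigen (ρT T) φ ≠ ⊥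
    · have h2 := eigen_im hT h1
      exact ⟨⟨fun _ => h2, fun _ => h1⟩, ⟨fun h' => absurd h1 h', fun h' => absurd h' (not_lt.mpr h2.le)⟩⟩
    · have h2 := eigen_im hT (hφ.resolve_left h1)
      rw [h3] at h2
      have h4 : (φ X).im < 0 := by linarith
      exact ⟨⟨fun h' => absurd h' h1, fun h' => absurd h' (not_lt.mpr h4.le)⟩, ⟨fun _ => h4, fun _ => h1⟩⟩
  have hroot : ∀ i, ∃ a : ℤ, c i X = ee N a := by
    intro i
    apply exists_ee hN
    rcases hmem _ (hcl i) with h1 | h1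
    · exact eigen_pow hTN h1
    · have h2 := eigen_pow hTN h1
      have h3 : cj (c i) X = (starRingEnd ℂ) (c i X) := rfl
      rw [h3, ← map_pow] at h2
      have h4 := congrArg (starRingEnd ℂ) h2
      simpa using h4
  choose a ha using hroot
  have ha0 : ∀ i, ¬ (N : ℤ) ∣ a i := by
    intro i hdvd
    have h1 : c i X = 1 := by
      rw [ha i, ee_congr hN (b := 0) (by rwa [sub_zero])]
      simp [ee]
    obtain ⟨h2, h3⟩ := him (c i) (hmem _ (hcl i))
    rw [h1, one_im] at h2 h3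
    by_cases h4 : eigen (ρT T) (c i) ≠ ⊥
    · exact lt_irrefl _ (h2.mp h4)
    · exact lt_irrefl _ (h3.mp h4)
  have hcard : ∀ (P : (ℤ[X] →+* ℂ) → Prop) [DecidablePred P], (l.filter P).card =
      (Finset.univ.filter fun i => P (c i)).card := by
    intro P _
    rw [← hc, Multiset.filter_map, Multiset.card_map]
    rfl
  obtain ⟨b, hb1, hb2, m, hm, hmle⟩ := hcomb N hN hDN j hj a ha0 (by
    intro t ht
    obtain ⟨σ, hσt⟩ := exists_sigma hN ht
    obtain ⟨h1, h2⟩ := hσ σ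
    rw [hcard] at h1 h2
    have h3 : ∀ i, (σ.comp (c i) X).im = Real.sin (2 * Real.pi * ((t * a i : ℝ) / N)) := by
      intro i
      rw [RingHom.comp_apply, ha i, hσt, ee_im]
      push_cast
      rfl
    have h4 : ∀ i, _ := fun i => him (σ.comp (c i)) (h.comp_mem σ (hmem _ (hcl i)))
    refine ⟨h1.trans (le_of_eq ?_), h2.trans (le_of_eq ?_)⟩
    · congr 1
      refine Finset.filter_congr fun i _ => ?_
      rw [← h3]
      exact (h4 i).1
    · congr 1
      refine Finset.filter_congr fun i _ => ?_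
      rw [← h3]
      exact (h4 i).2)
  have hc1 : ∀ i l, b i = b l → c i = c l := by
    intro i l' h1
    apply char_ext
    rw [ha, ha]
    exact ee_congr hN (hb1 i l' h1)
  have hc2 : ∀ i l, b i = - b l → c i = cj (c l) := by
    intro i l' h1
    apply char_ext
    have h2 : cj (c l') X = (starRingEnd ℂ) (c l' X) := rfl
    rw [h2, ha, ha, ee_neg]
    refine ee_congr hN ?_
    rw [sub_neg_eq_add]
    exact hb2 i l' h1
  let Ψ : ℤ → (ℤ[X] →+* ℂ) := fun z =>
    if h : ∃ i, b i = z then c h.choose else Polynomial.eval₂RingHom (Int.castRingHom ℂ) 0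
  have hΨ : ∀ i, Ψ (b i) = c i := by
    intro i
    have h1 : ∃ i', b i' = b i := ⟨i, rfl⟩
    simp only [Ψ, dif_pos h1]
    exact hc1 _ _ h1.choose_spec
  refine ⟨m.map Ψ, by rw [Multiset.card_map, hm], ?_⟩
  have h1 : (m.map Ψ).map cj = (m.map fun z => -z).map Ψ := by
    rw [Multiset.map_map, Multiset.map_map]
    refine Multiset.map_congr rfl fun z hz => ?_
    have h2 : z ∈ (Finset.univ : Finset (Fin k)).val.map b :=
      Multiset.mem_of_le hmle (Multiset.mem_add.mpr (Or.inl hz))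
    have h3 : -z ∈ (Finset.univ : Finset (Fin k)).val.map b :=
      Multiset.mem_of_le hmle (Multiset.mem_add.mpr (Or.inr
        (Multiset.mem_map_of_mem (fun z => -z) hz)))
    obtain ⟨i, -, rfl⟩ := Multiset.mem_map.mp h2
    obtain ⟨i', -, hi'⟩ := Multiset.mem_map.mp h3
    simp only [Function.comp_apply]
    rw [← hi', hΨ, hΨ]
    exact (hc2 i' i hi').symm
  rw [h1, ← Multiset.map_add]
  refine (Multiset.map_le_map hmle).trans (le_of_eq ?_)
  rw [Multiset.map_map, ← hc]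
  exact Multiset.map_congr rfl fun i _ => hΨ i

end Pool.Agent.UpperHalf
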